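import Pool.Agent.P.MP_2c7719_nt.Win.ApxE

/-- For large `k`, let `(a : b : c : d)` be close to a rational point `(u : v : w : z)` of height at
most `d^δ`, in the combined sense that `az - du`, `bz - dv`, `cz - dw` are multiples of `M` of size
at most `M d^(1-ε)`. If `a^k + b^k - c^k - d^k` is a multiple of `M^C` of size at most
`(M d^(-ε))^C d^k`, where `C` does not depend on `k`, then it vanishes and the solution is trivial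
or equal to that point. -/
theorem Pool.Agent.Results.MP_2c7719_nt.NearWindows.result (ε : ℝ) (hε : 0 < ε) :
    ∃ k₀ C : ℕ, ∀ k ≥ k₀, ∃ δ : ℝ, 0 < δ ∧ ∃ N₀ : ℕ,
      ∀ a b c d u v w z M : ℕ, N₀ ≤ d → 1 ≤ u → 1 ≤ v → 1 ≤ w → 1 ≤ z →
        (u : ℝ) ≤ (d : ℝ) ^ δ → (v : ℝ) ≤ (d : ℝ) ^ δ → (w : ℝ) ≤ (d : ℝ) ^ δ →
        (z : ℝ) ≤ (d : ℝ) ^ δ → 1 ≤ M → Nat.Coprime M (Nat.gcd (Nat.gcd a b) (Nat.gcd c d)) →
        a * z ≡ d * u [MOD M] → b * z ≡ d * v [MOD M] → c * z ≡ d * w [MOD M] →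
        |(a : ℝ) * z - d * u| ≤ min (M * (d : ℝ) ^ (1 - ε)) ((d : ℝ) ^ (1 + δ)) →
        |(b : ℝ) * z - d * v| ≤ min (M * (d : ℝ) ^ (1 - ε)) ((d : ℝ) ^ (1 + δ)) →
        |(c : ℝ) * z - d * w| ≤ min (M * (d : ℝ) ^ (1 - ε)) ((d : ℝ) ^ (1 + δ)) →
        (M : ℤ) ^ C ∣ (a : ℤ) ^ k + b ^ k - c ^ k - d ^ k →
        |(a : ℝ) ^ k + b ^ k - c ^ k - d ^ k| ≤ (M * (d : ℝ) ^ (-ε)) ^ C * d ^ k →
        a ^ k + b ^ k = c ^ k + d ^ k ∧ ((a = c ∧ b = d) ∨ (a = d ∧ b = c) ∨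
          (a * z = d * u ∧ b * z = d * v ∧ c * z = d * w)) :=
  Pool.Agent.P.MP_2c7719_nt.Win.near2 ε hε
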