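import Mathlib
import Pool.Agent.P.MP_2c7719_nt.Core

namespace Pool.Agent.Results.MP_2c7719_nt.SymmetricQuartic

open Polynomial Pool.Agent.P.MP_2c7719_nt

theorem aux (a b e d k : ℤ) (ha : 0 < a) (h : b ^ 3 - 4 * a * b * e + 8 * a ^ 2 * d = 0) (n : ℕ) :
    ∃ x1 x2 x3 x4 : ℕ, n ≤ x1 ∧ x1 < x2 ∧ n ≤ x3 ∧ x3 < x4 ∧ (x1, x2) ≠ (x3, x4) ∧
      (a * (x1 : ℤ) ^ 4 + b * x1 ^ 3 + e * x1 ^ 2 + d * x1 + k)
        + (a * (x2 : ℤ) ^ 4 + b * x2 ^ 3 + e * x2 ^ 2 + d * x2 + k)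
      = (a * (x3 : ℤ) ^ 4 + b * x3 ^ 3 + e * x3 ^ 2 + d * x3 + k)
        + (a * (x4 : ℤ) ^ 4 + b * x4 ^ 3 + e * x4 ^ 2 + d * x4 + k) := by
  obtain ⟨y1, y2, y3, y4, ⟨t1, d1⟩, ⟨t2, d2⟩, ⟨t3, d3⟩, ⟨t4, d4⟩, l2, l12, l4, l34, hne, hf⟩ :=
    coll (16 * a * e - 6 * b ^ 2) (4 * a) b (4 * a * n + b) (by linarith)
  have h4 : 0 < 4 * a := by linarith
  have m2 : (n : ℤ) ≤ t2 := le_of_mul_le_mul_left (by linarith) h4
  have m4 : (n : ℤ) ≤ t4 := le_of_mul_le_mul_left (by linarith) h4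
  have m1 : t2 < t1 := lt_of_mul_lt_mul_left (by linarith) h4.le
  have m3 : t4 < t3 := lt_of_mul_lt_mul_left (by linarith) h4.le
  have hn : (0 : ℤ) ≤ n := Int.natCast_nonneg n
  lift t1 to ℕ using (by linarith)
  lift t2 to ℕ using (by linarith)
  lift t3 to ℕ using (by linarith)
  lift t4 to ℕ using (by linarith)
  refine ⟨t2, t1, t4, t3, by exact_mod_cast m2, by exact_mod_cast m1, by exact_mod_cast m4,
    by exact_mod_cast m3, ?_, ?_⟩
  · intro e0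
    have e1 : t1 = t3 := (Prod.mk.inj e0).2
    apply hne
    rw [e1] at d1
    linarith
  · have e1 : y1 = 4 * a * t1 + b := by linarith
    have e2 : y2 = 4 * a * t2 + b := by linarith
    have e3 : y3 = 4 * a * t3 + b := by linarith
    have e4 : y4 = 4 * a * t4 + b := by linarith
    rw [e1, e2, e3, e4] at hf
    unfold fq at hf
    have h256 : (256 * a ^ 3) ≠ 0 := by positivity
    apply mul_left_cancel₀ h256
    linear_combination hf + 32 * a * ((t1 : ℤ) + t2 - t3 - t4) * h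

/-- No integer quartic whose graph has a vertical axis of symmetry is pair-sum distinct,
even after removing finitely many arguments. -/
theorem result (P : ℤ[X]) (hdeg : P.natDegree = 4) (s : ℝ)
    (hsym : ∀ x : ℝ, aeval (s - x) P = aeval x P) (n : ℕ) :
    ∃ a b c d : ℕ, n ≤ a ∧ a < b ∧ n ≤ c ∧ c < d ∧ (a, b) ≠ (c, d) ∧
      P.eval (a : ℤ) + P.eval (b : ℤ) = P.eval (c : ℤ) + P.eval (d : ℤ) := by
  have ha : P.coeff 4 ≠ 0 := by
    have : P ≠ 0 := by rintro rfl; simp at hdeg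
    rw [← hdeg]
    exact leadingCoeff_ne_zero.mpr this
  have ev : ∀ x : ℤ, P.eval x = P.coeff 4 * x ^ 4 + P.coeff 3 * x ^ 3 + P.coeff 2 * x ^ 2
      + P.coeff 1 * x + P.coeff 0 := by
    intro x
    rw [eval_eq_sum_range, hdeg]
    simp [Finset.sum_range_succ]
    ring
  have evR : ∀ x : ℝ, aeval x P = (P.coeff 4 : ℝ) * x ^ 4 + P.coeff 3 * x ^ 3 + P.coeff 2 * x ^ 2
      + P.coeff 1 * x + P.coeff 0 := by
    intro x
    rw [aeval_eq_sum_range, hdeg]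
    simp [Finset.sum_range_succ]
    ring
  generalize P.coeff 4 = a at *
  generalize P.coeff 3 = b at *
  generalize P.coeff 2 = e at *
  generalize P.coeff 1 = d at *
  generalize P.coeff 0 = k at *
  have h1 := hsym (s / 2 + 1)
  have h2 := hsym (s / 2 + 2)
  rw [evR, evR] at h1 h2
  have g1 : 2 * (a : ℝ) * s + b = 0 := by linear_combination (1 / 6) * h1 - (1 / 12) * h2
  have g2 : (a : ℝ) * s ^ 3 / 2 + 3 * b * s ^ 2 / 4 + e * s + d = 0 := by
    linear_combination (-2 / 3) * h1 + (1 / 12) * h2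
  have g3 : (b : ℝ) ^ 3 - 4 * a * b * e + 8 * a ^ 2 * d = 0 := by
    have hb : (b : ℝ) = -2 * a * s := by linarith
    rw [hb] at g2 ⊢
    linear_combination 8 * (a : ℝ) ^ 2 * g2
  have g4 : b ^ 3 - 4 * a * b * e + 8 * a ^ 2 * d = 0 := by exact_mod_cast g3
  rcases lt_or_gt_of_ne ha with hneg | hpos
  · obtain ⟨x1, x2, x3, x4, q1, q2, q3, q4, q5, q6⟩ :=
      aux (-a) (-b) (-e) (-d) (-k) (by linarith) (by linear_combination -g4) n
    refine ⟨x1, x2, x3, x4, q1, q2, q3, q4, q5, ?_⟩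
    rw [ev, ev, ev, ev]
    linear_combination -q6
  · obtain ⟨x1, x2, x3, x4, q1, q2, q3, q4, q5, q6⟩ := aux a b e d k hpos g4 n
    refine ⟨x1, x2, x3, x4, q1, q2, q3, q4, q5, ?_⟩
    rw [ev, ev, ev, ev]
    exact q6

end Pool.Agent.Results.MP_2c7719_nt.SymmetricQuartic
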